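import Pool.Agent.Helper29.ZR.Props
import Pool.Agent.Helper10.RC.Homs

/-!
# MP_b55b7c_an, packet ZR-AsrX: tracial comparison in the crossed product gives approximate
stable rank one
-/

open scoped ENNReal NNReal InnerProductSpace ComplexOrder
open Filter Topology

attribute [-instance] CStarMatrix.instAlgebra CStarMatrix.instModule CStarMatrix.instSMul
  CStarMatrix.instMulAction CStarMatrix.instDistribMulAction

noncomputable section
namespace RC
universe u

theorem asrX_rep_one1 {A : Type u} [CStarAlgebra A] (G : Type) [DecidableEq G] (c : A) :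
    rep G (one1 c) = dg (G × Unit) c := by
  ext p q
  rcases p with ⟨p, _⟩
  rcases q with ⟨q, _⟩
  show (if p = q then c else 0) = (if (p, ()) = (q, ()) then c else 0)
  by_cases h : p = q
  · simp [h]
  · simp [h]

theorem asrX (hPC : AsrPCP.{u}) (hSm : SmallEP.{u}) (hDim : DimP.{u}) (hDg : QDgP.{u})
    (hOne : QOneP.{u}) (hRoom : RoomXP.{u}) (hGen : PCGenP.{u}) : AsrXP.{u} := by
  intro A R _ _ _ _ _ _ G _ _ α k w hact hcross hsimp hnofin hTC
  classical
  by_cases hne : Nonempty (TState A)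
  swap
  · intro x η θ hη _
    refine ⟨x, 1, ?_, zero_le_one, ⟨0, 1, ?_⟩, fun φ => (hne ⟨φ⟩).elim⟩
    · rw [sub_self, norm_zero]
      exact hη.le
    · rw [zero_mul, one_mul, zero_add]
  apply hPC A
  intro θ hθ
  have hn : (0 : ℝ) < Fintype.card G := by
    have : 0 < Fintype.card G := Fintype.card_pos
    exact_mod_cast this
  obtain ⟨c0, Jc, rc, hc0, hαc, hsum, hrk⟩ :=
    hSm A G α hact hsimp hnofin hne (θ / Fintype.card G) (div_pos hθ hn)
  have hlow : ∀ σ : QTrace A, 1 ≤ (Jc : ℝ) * σ.dim (one1 c0) := by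
    intro σ
    obtain ⟨-, h2, h3, -⟩ := hDim A σ
    have h1 : σ.dim (one1 (1 : A)) = 1 := by
      have h := (hOne A σ Unit).2
      have e : one1 (1 : A) = 1 := by
        ext i j
        rfl
      rw [e, h]
      simp
    have h4 : ∀ i, rc i * (c0 * c0) * star (rc i) = sq (1 * c0 * star (rc i)) := by
      intro i
      have hs : star c0 = c0 := hc0.isSelfAdjoint.star_eq
      simp only [sq, one_mul, star_mul, star_star, hs]
      simp only [mul_assoc]
    have h5 : ∀ i, 0 ≤ rc i * (c0 * c0) * star (rc i) := fun i => by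
      rw [h4]
      exact star_mul_self_nonneg _
    calc (1 : ℝ) = σ.dim (one1 (∑ i, rc i * (c0 * c0) * star (rc i))) := by rw [hsum, h1]
      _ ≤ ∑ i, σ.dim (one1 (rc i * (c0 * c0) * star (rc i))) := h2 Jc _ h5
      _ ≤ ∑ _i : Fin Jc, σ.dim (one1 c0) := Finset.sum_le_sum fun i _ => by
          rw [h4]
          exact h3 c0 1 (star (rc i)) hc0
      _ = (Jc : ℝ) * σ.dim (one1 c0) := by simp
  have hJ : (0 : ℝ) < Jc := by
    have hJ' : Jc ≠ 0 := by
      rintro rfl
      have := hsimp.1
      simp at hsum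
    exact_mod_cast Nat.pos_of_ne_zero hJ'
  have hn2 : (0 : ℝ) < (Fintype.card G : ℝ) ^ 2 + 1 := by positivity
  obtain ⟨e, J, r, he, hαe, hsume, hrke⟩ :=
    hSm A G α hact hsimp hnofin hne (1 / (4 * Jc * ((Fintype.card G : ℝ) ^ 2 + 1)))
      (by positivity)
  have hr0 : (0 : ℝ) < 1 / (4 * Jc) := by positivity
  have hroom : ∀ θ' : ℝ, 0 < θ' → RoomL (rep G (one1 c0)) e θ' := by
    refine hRoom A R G α k w hact hcross Unit (one1 c0) e (1 / (4 * Jc)) (one1_nonneg hc0)
      (fun g => ?_) he hαe hr0.le (hTC _ hr0) (fun σ => ?_)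
    · ext i j
      exact hαc g
    · have h1 := hrke σ
      have h2 := hlow σ
      have h3 : ((Fintype.card G : ℝ) ^ 2 + 1) * σ.dim (one1 e) ≤ 1 / (4 * Jc) := by
        calc ((Fintype.card G : ℝ) ^ 2 + 1) * σ.dim (one1 e)
            ≤ ((Fintype.card G : ℝ) ^ 2 + 1) *
              (1 / (4 * Jc * ((Fintype.card G : ℝ) ^ 2 + 1))) :=
              mul_le_mul_of_nonneg_left h1 hn2.le
          _ = 1 / (4 * Jc) := by field_simp
      have h4 : 1 / (Jc : ℝ) ≤ σ.dim (one1 c0) := by
        rw [div_le_iff₀ hJ, mul_comm]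
        exact h2
      have h5 : 1 / (4 * (Jc : ℝ)) + 1 / (4 * Jc) < 1 / Jc := by
        have : 1 / (4 * (Jc : ℝ)) + 1 / (4 * Jc) = 1 / Jc / 2 := by
          field_simp
          norm_num
        rw [this]
        exact half_lt_self (by positivity)
      linarith
  have hdg : rep G (one1 c0) = dg (G × Unit) c0 := asrX_rep_one1 G c0
  have hpos : 0 ≤ rep G (one1 c0) := by
    rw [hdg]
    exact dg_nonneg hc0
  refine ⟨G × Unit, inferInstance, inferInstance, rep G (one1 c0), hpos, fun φ σ _ => ?_, ?_⟩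
  · rw [hdg, (hDg A σ (G × Unit) c0 hc0).2]
    have h := mul_le_mul_of_nonneg_left (hrk σ) hn.le
    have h' : (Fintype.card G : ℝ) * (θ / Fintype.card G) = θ := by field_simp
    rw [h'] at h
    simpa using h
  · exact hGen A (G × Unit) (rep G (one1 c0)) e J r hpos he hsume hroom

end RC
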